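import Pool.Agent.N65.GP.Defs2

set_option autoImplicit false

/-!
# Project GP, second part, PF (helper645): the polynomials `F(c, ·)` and `F(·, m)`
-/

namespace Pool.Agent.N645.GP2

open Complex Polynomial
open Pool.Agent.N65.GP

/-- the shape of both polynomials -/
lemma shape {n : ℕ} {A : ℂ} (hA : A ≠ 0) (β : Fin n → ℂ) (q : ℂ[X]) (hq : q.degree < n) :
    (C A * ∏ i, (X - C (β i)) + q).natDegree = n ∧ (C A * ∏ i, (X - C (β i)) + q).leadingCoeff = A ∧
      C A * ∏ i, (X - C (β i)) + q ≠ 0 := by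
  have hm : (∏ i, (X - C (β i)) : ℂ[X]).Monic := monic_prod_of_monic _ _ fun i _ => monic_X_sub_C _
  have hd : (∏ i, (X - C (β i)) : ℂ[X]).degree = n := by
    rw [degree_prod]
    simp
  have h1 : (C A * ∏ i, (X - C (β i)) : ℂ[X]).degree = n := by
    rw [degree_mul, degree_C hA, hd, zero_add]
  have h2 : (C A * ∏ i, (X - C (β i)) + q).degree = n := by
    rw [degree_add_eq_left_of_degree_lt (by rw [h1]; exact hq), h1]
  have h3 : (C A * ∏ i, (X - C (β i)) + q).leadingCoeff = A := by
    rw [leadingCoeff_add_of_degree_lt' (by rw [h1]; exact hq), leadingCoeff_mul, leadingCoeff_C, hm.leadingCoeff, mul_one]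
  refine ⟨natDegree_eq_of_degree_eq_some h2, h3, ?_⟩
  intro h
  rw [h, leadingCoeff_zero] at h3
  exact hA h3.symm

/-- a polynomial with its roots -/
lemma factor {n : ℕ} {A : ℂ} {p : ℂ[X]} (hn : p.natDegree = n) (hl : p.leadingCoeff = A) (h0 : p ≠ 0)
    {Y : Fin n → ℂ} (hY : Function.Injective Y) (hr : ∀ i, p.eval (Y i) = 0) (m : ℂ) :
    p.eval m = A * ∏ i, (m - Y i) := by
  have h1 : (Finset.univ.val.map Y) ≤ p.roots := by
    rw [Multiset.le_iff_subset (Multiset.Nodup.map hY Finset.univ.nodup)]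
    intro y hy
    rw [Multiset.mem_map] at hy
    obtain ⟨i, -, rfl⟩ := hy
    rw [mem_roots h0]
    exact hr i
  have h2 : Finset.univ.val.map Y = p.roots := by
    refine Multiset.eq_of_le_of_card_le h1 ?_
    refine (card_roots' p).trans ?_
    rw [hn, Multiset.card_map]
    simp
  have h3 : Multiset.card p.roots = p.natDegree := by
    rw [← h2, Multiset.card_map, hn]
    simp
  have h4 := C_leadingCoeff_mul_prod_multiset_X_sub_C h3
  rw [← h4, ← h2, hl, Multiset.map_map]
  rw [eval_mul, eval_C]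
  congr 1
  show eval m (∏ i, (X - C (Y i))) = _
  rw [eval_prod]
  simp

/-- enumeration of simple roots -/
lemma enum {n : ℕ} {p : ℂ[X]} (hn : p.natDegree = n) (h0 : p ≠ 0)
    (hs : ∀ y, p.eval y = 0 → p.derivative.eval y ≠ 0) :
    ∃ Y : Fin n → ℂ, Function.Injective Y ∧ ∀ y, p.eval y = 0 ↔ ∃ i, y = Y i := by
  classical
  have hnd : p.roots.Nodup := by
    rw [Multiset.nodup_iff_count_le_one]
    intro y
    rw [count_roots]
    by_contra hcon
    rw [not_le, one_lt_rootMultiplicity_iff_isRoot h0] at hcon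
    exact hs y hcon.1 hcon.2
  have hc : Multiset.card p.roots = p.natDegree := (IsAlgClosed.splits p).natDegree_eq_card_roots.symm
  have hcard : p.roots.toFinset.card = n := by
    rw [Multiset.toFinset_card_of_nodup hnd, hc, hn]
  let e := p.roots.toFinset.equivFinOfCardEq hcard
  refine ⟨fun i => (e.symm i : ℂ), ?_, fun y => ?_⟩
  · intro i j hij
    exact e.symm.injective (Subtype.ext hij)
  · constructor
    · intro hy
      have hmem : y ∈ p.roots.toFinset := by
        rw [Multiset.mem_toFinset, mem_roots h0]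
        exact hy
      exact ⟨e ⟨y, hmem⟩, by simp⟩
    · rintro ⟨i, rfl⟩
      have := (e.symm i).2
      rw [Multiset.mem_toFinset, mem_roots h0] at this
      exact this

variable {k : Subfield ℂ}

/-- the lower terms in `y` -/
noncomputable def qy (D : Crv k) (c : ℂ) : ℂ[X] :=
  ∑ i ∈ Finset.range D.n, ∑ j ∈ Finset.range (D.n - i), C (D.a i j * c ^ i) * X ^ j

/-- the lower terms in `x` -/
noncomputable def qx (D : Crv k) (m : ℂ) : ℂ[X] :=
  ∑ i ∈ Finset.range D.n, ∑ j ∈ Finset.range (D.n - i), C (D.a i j * m ^ j) * X ^ i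

lemma qy_deg (D : Crv k) (c : ℂ) : (qy D c).degree < D.n := by
  unfold qy
  refine (degree_sum_le _ _).trans_lt ?_
  rw [Finset.sup_lt_iff (by exact_mod_cast WithBot.bot_lt_coe D.n)]
  intro i hi
  refine (degree_sum_le _ _).trans_lt ?_
  rw [Finset.sup_lt_iff (by exact_mod_cast WithBot.bot_lt_coe D.n)]
  intro j hj
  rw [Finset.mem_range] at hj
  refine (degree_C_mul_X_pow_le _ _).trans_lt ?_
  exact_mod_cast (by omega : j < D.n)

lemma qx_deg (D : Crv k) (m : ℂ) : (qx D m).degree < D.n := by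
  unfold qx
  refine (degree_sum_le _ _).trans_lt ?_
  rw [Finset.sup_lt_iff (by exact_mod_cast WithBot.bot_lt_coe D.n)]
  intro i hi
  rw [Finset.mem_range] at hi
  refine (degree_sum_le _ _).trans_lt ?_
  rw [Finset.sup_lt_iff (by exact_mod_cast WithBot.bot_lt_coe D.n)]
  intro j hj
  refine (degree_C_mul_X_pow_le _ _).trans_lt ?_
  exact_mod_cast hi

lemma ev_y (D : Crv k) (c y : ℂ) :
    (C 1 * ∏ i, (X - C (D.α i * c)) + qy D c).eval y = D.F c y := by
  unfold qy Crv.F Fp
  rw [eval_add, eval_mul, eval_prod, eval_finsetSum]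
  simp only [eval_C, one_mul, eval_sub, eval_X, eval_finsetSum, eval_mul, eval_pow]

lemma ev_x (D : Crv k) (m x : ℂ) :
    (C (∏ i, (- D.α i)) * ∏ i, (X - C (m / D.α i)) + qx D m).eval x = D.F x m := by
  unfold qx Crv.F Fp
  rw [eval_add, eval_mul, eval_prod, eval_finsetSum]
  simp only [eval_C, eval_sub, eval_X, eval_finsetSum, eval_mul, eval_pow]
  congr 1
  · rw [← Finset.prod_mul_distrib]
    refine Finset.prod_congr rfl fun i _ => ?_
    have := D.ne i
    field_simp
    ring
  · refine Finset.sum_congr rfl fun i _ => Finset.sum_congr rfl fun j _ => ?_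
    ring

/-- **PF**: the polynomials `F(c, ·)` and `F(·, m)`. -/
theorem t_PF : S_PF := by
  intro k D
  refine ⟨fun c h => ?_, fun c Y hY hr m => ?_, fun m Y hY hr c => ?_⟩
  · obtain ⟨h1, -, h3⟩ := shape one_ne_zero (fun i => D.α i * c) (qy D c) (qy_deg D c)
    obtain ⟨Y, hY, hr⟩ := enum h1 h3 (fun y hy => by
      rw [ev_y] at hy
      have h4 := h y hy
      unfold Crv.Fy at h4
      have h5 : (fun t => D.F c t) = fun t => (C 1 * ∏ i, (X - C (D.α i * c)) + qy D c).eval t := by
        funext t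
        rw [ev_y]
      rw [h5, Polynomial.deriv] at h4
      exact h4)
    refine ⟨Y, hY, fun y => ?_⟩
    rw [← hr y, ev_y]
  · obtain ⟨h1, h2, h3⟩ := shape one_ne_zero (fun i => D.α i * c) (qy D c) (qy_deg D c)
    have h4 := factor h1 h2 h3 hY (fun i => by
      rw [ev_y]
      exact (hr (Y i)).2 ⟨i, rfl⟩) m
    rw [ev_y, one_mul] at h4
    exact h4
  · have hA : (∏ i, (- D.α i)) ≠ 0 := Finset.prod_ne_zero_iff.2 fun i _ => neg_ne_zero.2 (D.ne i)
    obtain ⟨h1, h2, h3⟩ := shape hA (fun i => m / D.α i) (qx D m) (qx_deg D m)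
    have h4 := factor h1 h2 h3 hY (fun i => by
      rw [ev_x]
      exact (hr (Y i)).2 ⟨i, rfl⟩) c
    rw [ev_x] at h4
    exact h4

end Pool.Agent.N645.GP2
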